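import Mathlib

/-! Gliding hump for integer valued finitely additive set functions on the natural numbers. -/

set_option autoImplicit false

open Filter Topology Set

namespace Pool.Agent.Q91.SGr

/-- the branch of a sequence in the binary tree, coded by natural numbers -/
def br (a : ℕ → Bool) (n : ℕ) : ℕ := Encodable.encode ((List.range n).map a)

theorem br_inj_left {a b : ℕ → Bool} {n m : ℕ} (h : br a n = br b m) : n = m ∧ ∀ i < n, a i = b i := by
  have h1 := Encodable.encode_injective h
  have h2 : n = m := by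
    have := congrArg List.length h1
    simpa using this
  refine ⟨h2, fun i hi => ?_⟩
  subst h2
  have h3 := List.map_inj_left.mp h1 i (List.mem_range.mpr hi)
  exact h3

theorem br_injective (a : ℕ → Bool) : Function.Injective (br a) := fun _ _ h => (br_inj_left h).1

theorem br_finite {a b : ℕ → Bool} (hab : a ≠ b) : (range (br a) ∩ range (br b)).Finite := by
  obtain ⟨p, hp⟩ := Function.ne_iff.mp hab
  refine ((Set.finite_Iic p).image (br a)).subset ?_
  rintro _ ⟨⟨n, rfl⟩, ⟨m, hm⟩⟩
  refine ⟨n, ?_, rfl⟩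
  obtain ⟨h1, h2⟩ := br_inj_left hm.symm
  by_contra hn
  rw [mem_Iic, not_le] at hn
  exact hp (h2 p hn)

theorem uncountable_seq : ¬ (Set.univ : Set (ℕ → Bool)).Countable := by
  intro h
  obtain ⟨f, hf⟩ := h.exists_eq_range ⟨fun _ => true, trivial⟩
  have h1 : (fun n => !(f n n)) ∈ range f := hf ▸ mem_univ _
  obtain ⟨n, hn⟩ := h1
  have h2 := congrFun hn n
  simp at h2

variable (m : ℕ → Set ℕ → ℤ)

theorem comb (hadd : ∀ k A B, Disjoint A B → m k (A ∪ B) = m k A + m k B)
    (hbdd : ∀ k, ∃ N : ℕ, ∀ (F : Finset (ℕ → Bool)) (A : (ℕ → Bool) → Set ℕ),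
      (∀ i ∈ F, ∀ j ∈ F, i ≠ j → Disjoint (A i) (A j)) → (∀ i ∈ F, m k (A i) ≠ 0) → F.card ≤ N)
    (hev : ∀ A, ∀ᶠ k in atTop, m k A = 0) : ∀ᶠ k in atTop, ∀ A, m k A = 0 := by
  classical
  by_contra hcon
  have hfr : ∃ᶠ k in atTop, ∃ C ⊆ (Set.univ : Set ℕ), m k C ≠ 0 := by
    rw [Filter.not_eventually] at hcon
    refine hcon.mono fun k hk => ?_
    push Not at hk
    obtain ⟨A, hA⟩ := hk
    exact ⟨A, subset_univ _, hA⟩
  have hempty : ∀ k, m k ∅ = 0 := by
    intro k
    have := hadd k ∅ ∅ (disjoint_bot_left)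
    rw [union_empty] at this
    linarith
  -- the sets on which infinitely many functions do not vanish
  let P : Set ℕ → Prop := fun B => ∃ᶠ k in atTop, ∃ C ⊆ B, m k C ≠ 0
  have hstep : ∀ (B : Set ℕ) (n : ℕ), P B → ∃ k A, n ≤ k ∧ A ⊆ B ∧ m k A ≠ 0 ∧ P (B \ A) := by
    intro B n hB
    obtain ⟨k, ⟨⟨C, hC, hCk⟩, hk1⟩, hk2⟩ := ((hB.and_eventually (hev B)).and_eventually
      (eventually_ge_atTop n)).exists
    have hsum : m k C + m k (B \ C) = 0 := by
      rw [← hadd k C (B \ C) disjoint_sdiff_right, union_sdiff_cancel hC]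
      exact hk1
    have hCk' : m k (B \ C) ≠ 0 := fun h => hCk (by linarith)
    have hor : ∃ᶠ k in atTop, (∃ D ⊆ C, m k D ≠ 0) ∨ (∃ D ⊆ B \ C, m k D ≠ 0) := by
      refine hB.mono fun l hl => ?_
      obtain ⟨D, hD, hDl⟩ := hl
      by_contra hno
      push Not at hno
      have h1 := hno.1 (D ∩ C) inter_subset_right
      have h2 := hno.2 (D \ C) (sdiff_subset_sdiff_left hD)
      apply hDl
      have h3 := hadd l (D ∩ C) (D \ C) (disjoint_of_subset_left inter_subset_right
        disjoint_sdiff_right)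
      rw [inter_union_sdiff] at h3
      rw [h3, h1, h2, add_zero]
    rw [Filter.frequently_or_distrib] at hor
    rcases hor with h | h
    · refine ⟨k, B \ C, hk2, sdiff_subset, hCk', ?_⟩
      rw [sdiff_sdiff_right_self, inter_eq_self_of_subset_right hC]
      exact h
    · exact ⟨k, C, hk2, hC, hCk, h⟩
  -- disjoint sets and an increasing sequence of indices
  obtain ⟨A, κ, hAdis, hκ, hAκ⟩ : ∃ (A : ℕ → Set ℕ) (κ : ℕ → ℕ),
      (∀ i j, i < j → Disjoint (A i) (A j)) ∧ StrictMono κ ∧ ∀ i, m (κ i) (A i) ≠ 0 := by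
    choose! f g h1 h2 h3 h4 using hstep
    -- state: the remaining set and a lower bound
    let st : ℕ → Set ℕ × ℕ := fun i => Nat.rec (univ, 0) (fun _ s => (s.1 \ g s.1 s.2, f s.1 s.2 + 1)) i
    have hst : ∀ i, P (st i).1 := by
      intro i
      induction i with
      | zero => exact hfr
      | succ i ih => exact h4 _ _ ih
    have hanti : ∀ i j, i ≤ j → (st j).1 ⊆ (st i).1 := by
      intro i j hij
      induction hij with
      | refl => exact Subset.rfl
      | step _ ih => exact sdiff_subset.trans ih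
    refine ⟨fun i => g (st i).1 (st i).2, fun i => f (st i).1 (st i).2, ?_, ?_, ?_⟩
    · intro i j hij
      have e1 : g (st j).1 (st j).2 ⊆ (st j).1 := h2 _ _ (hst j)
      have e2 : (st j).1 ⊆ (st i).1 \ g (st i).1 (st i).2 := hanti (i + 1) j hij
      exact disjoint_of_subset_right (e1.trans e2) disjoint_sdiff_right
    · refine strictMono_nat_of_lt_succ fun i => ?_
      have : f (st i).1 (st i).2 + 1 ≤ f (st (i + 1)).1 (st (i + 1)).2 := h1 _ _ (hst (i + 1))
      exact this
    · intro i
      exact h3 _ _ (hst i)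
  have hAdis' : ∀ i j, i ≠ j → Disjoint (A i) (A j) := by
    intro i j hij
    rcases lt_or_gt_of_ne hij with h | h
    · exact hAdis i j h
    · exact (hAdis j i h).symm
  -- the sets of the almost disjoint family
  let B : (ℕ → Bool) → Set ℕ := fun a => ⋃ n ∈ range (br a), A n
  let bad : ℕ → Set (ℕ → Bool) := fun k =>
    {a | ∀ J : Finset ℕ, ∃ C ⊆ B a \ ⋃ i ∈ J, A i, m k C ≠ 0}
  have hbad : ∀ k, (bad k).Finite := by
    intro k
    by_contra hinf
    obtain ⟨N, hN⟩ := hbdd k
    obtain ⟨F, hF, hFN⟩ := Set.Infinite.exists_subset_card_eq hinf (N + 1)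
    have hJfin : (⋃ a ∈ F, ⋃ b ∈ F, ⋃ _ : a ≠ b, range (br a) ∩ range (br b)).Finite := by
      refine Set.Finite.biUnion F.finite_toSet fun a _ => Set.Finite.biUnion F.finite_toSet
        fun b _ => ?_
      by_cases hab : a = b
      · simp [hab]
      · simp only [ne_eq, hab, not_false_eq_true, iUnion_true]
        exact br_finite hab
    let J : Finset ℕ := hJfin.toFinset
    have hch : ∀ a ∈ F, ∃ C ⊆ B a \ ⋃ i ∈ J, A i, m k C ≠ 0 := fun a ha => hF ha J
    choose! C hC1 hC2 using hch
    have := hN F C ?_ hC2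
    · omega
    · intro a ha b hb hab
      rw [Set.disjoint_left]
      intro x hxa hxb
      obtain ⟨hx1, hx2⟩ := hC1 a ha hxa
      obtain ⟨hx3, _⟩ := hC1 b hb hxb
      simp only [B, mem_iUnion] at hx1 hx3
      obtain ⟨n, hn, hxn⟩ := hx1
      obtain ⟨n', hn', hxn'⟩ := hx3
      have hnn : n = n' := by
        by_contra hne
        exact (Set.disjoint_left.mp (hAdis' n n' hne)) hxn hxn'
      subst hnn
      apply hx2
      simp only [mem_iUnion]
      refine ⟨n, ?_, hxn⟩
      rw [Set.Finite.mem_toFinset]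
      simp only [mem_iUnion]
      exact ⟨a, ha, b, hb, hab, hn, hn'⟩
  have hgood : ∃ a, ∀ k, a ∉ bad k := by
    by_contra hno
    push Not at hno
    apply uncountable_seq
    have : (⋃ k, bad k).Countable := countable_iUnion fun k => (hbad k).countable
    refine this.mono fun a _ => ?_
    obtain ⟨k, hk⟩ := hno a
    exact mem_iUnion.mpr ⟨k, hk⟩
  obtain ⟨a, ha⟩ := hgood
  have hJ : ∀ k, ∃ J : Finset ℕ, ∀ C ⊆ B a \ ⋃ i ∈ J, A i, m k C = 0 := by
    intro k
    have h1 := ha k
    simp only [bad, mem_ofPred_eq] at h1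
    push Not at h1
    exact h1
  choose J hJ using hJ
  -- the final subsequence
  obtain ⟨f, hf1, hf2⟩ := exists_seq_of_forall_finset_exists (fun i => i ∈ range (br a))
    (fun i i' => i < i' ∧ i' ∉ J (κ i) ∧ m (κ i') (A i) = 0) (by
    intro s _
    have h1 : ∀ᶠ i' in atTop, ∀ x ∈ s, x < i' ∧ i' ∉ J (κ x) ∧ m (κ i') (A x) = 0 := by
      rw [Filter.eventually_all_finset]
      intro x _
      refine (eventually_gt_atTop x).and (Filter.Eventually.and ?_ ?_)
      · filter_upwards [eventually_gt_atTop ((J (κ x)).sup id)] with i' hi' hmem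
        exact absurd (Finset.le_sup (f := id) hmem) (not_le.mpr hi')
      · exact hκ.tendsto_atTop.eventually (hev (A x))
    have h2 : ∃ᶠ i' in atTop, i' ∈ range (br a) := by
      rw [Nat.frequently_atTop_iff_infinite]
      exact Set.infinite_range_of_injective (br_injective a)
    obtain ⟨y, hy1, hy2⟩ := (h2.and_eventually h1).exists
    exact ⟨y, hy1, hy2⟩)
  let U : Set ℕ := ⋃ n, A (f n)
  have hfmono : StrictMono f := fun i j hij => (hf2 i j hij).1
  have hne : ∀ n, m (κ (f n)) U ≠ 0 := by
    intro n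
    -- decompose
    have hlow : ∀ l ≤ n, m (κ (f n)) (⋃ i ∈ Finset.range l, A (f i)) = 0 := by
      intro l
      induction l with
      | zero => intro _; simp [hempty]
      | succ l ih =>
        intro hl
        rw [Finset.range_add_one, Finset.set_biUnion_insert, hadd, (hf2 l n (by omega)).2.2,
          ih (by omega), add_zero]
        rw [Set.disjoint_iUnion₂_right]
        intro i hi
        exact hAdis' _ _ (fun h => by
          have := hfmono.injective h
          rw [Finset.mem_range] at hi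
          omega)
    let R : Set ℕ := ⋃ i ∈ Set.Ioi n, A (f i)
    have hR : m (κ (f n)) R = 0 := by
      apply hJ
      intro x hx
      simp only [R, mem_iUnion] at hx
      obtain ⟨i, hi, hxi⟩ := hx
      constructor
      · simp only [B, mem_iUnion]
        exact ⟨f i, hf1 i, hxi⟩
      · simp only [mem_iUnion, not_exists]
        intro j hj hxj
        have h1 : f i ∉ J (κ (f n)) := (hf2 n i hi).2.1
        have h2 : f i ≠ j := fun h => h1 (h ▸ hj)
        exact (Set.disjoint_left.mp (hAdis' _ _ h2)) hxi hxj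
    have hU : U = (⋃ i ∈ Finset.range n, A (f i)) ∪ (A (f n) ∪ R) := by
      ext x
      simp only [U, R, mem_iUnion, mem_union, Finset.mem_range, mem_Ioi, exists_prop]
      constructor
      · rintro ⟨i, hi⟩
        rcases lt_trichotomy i n with h | h | h
        · exact Or.inl ⟨i, h, hi⟩
        · exact Or.inr (Or.inl (h ▸ hi))
        · exact Or.inr (Or.inr ⟨i, h, hi⟩)
      · rintro (⟨i, _, hi⟩ | hi | ⟨i, _, hi⟩)
        · exact ⟨i, hi⟩
        · exact ⟨n, hi⟩
        · exact ⟨i, hi⟩
    rw [hU, hadd, hadd, hR, hlow n le_rfl, add_zero, zero_add]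
    · exact hAκ (f n)
    · rw [Set.disjoint_iUnion₂_right]
      intro i hi
      exact hAdis' _ _ (fun h => by
        have := hfmono.injective h
        rw [mem_Ioi] at hi
        omega)
    · rw [Set.disjoint_iUnion₂_left]
      intro i hi
      rw [Finset.mem_range] at hi
      rw [Set.disjoint_union_right]
      constructor
      · exact hAdis' _ _ (fun h => by
          have := hfmono.injective h
          omega)
      · rw [Set.disjoint_iUnion₂_right]
        intro j hj
        exact hAdis' _ _ (fun h => by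
          have := hfmono.injective h
          rw [mem_Ioi] at hj
          omega)
  have hlim : Tendsto (fun n => κ (f n)) atTop atTop :=
    hκ.tendsto_atTop.comp hfmono.tendsto_atTop
  obtain ⟨n, hn⟩ := (hlim.eventually (hev U)).exists
  exact hne n hn

end Pool.Agent.Q91.SGr
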